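import Pool.Agent.N625.PT.X20
import Pool.Agent.Run7.h927.SV.X12
import Pool.Agent.Run7.h927.SV.M
import Pool.Agent.Y877.SxI

/-!
# Laws of random integers (walks in graphs, nested words, Markov random fields of digits), and random multiples of a small
primorial added to the members of several sequences of primes (helper740)

The definitions of the laws are those of the hand-ins of helper927 (`DigitLawQuadruples`, ...); the analytic part is
`Pool.Agent.Run7.h927.SV.tuple_law`. Here: a version for arbitrary index sets and sequences of primes without conditions of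
coprimality.
-/

set_option autoImplicit false

open Finset

namespace Pool.Agent.Run7.h740.DL

/-- The digits `a < b` act on the set `X` of the vertices: an edge with the label `a` leads from `x` to `y` if
`δ x a = some y` (at most one edge with the label `a` starts at `x`). The number of the edges from `x` to `y` equals the
number of the edges from `y` to `x`, and at least two edges start at every vertex. The graph may be infinite. -/
structure Graph {X : Type} (b : ℕ) (δ : X → ℕ → Option X) : Prop where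
  symm : ∀ x y : X, {a : ℕ | a < b ∧ δ x a = some y}.ncard = {a : ℕ | a < b ∧ δ y a = some x}.ncard
  two : ∀ x : X, ∃ a a' : ℕ, a < a' ∧ a' < b ∧ (δ x a).isSome ∧ (δ x a').isSome

open Classical in
/-- The integers `v < b ^ k` whose `k` digits in base `b`, from the most significant to the least significant one (the
digit number `i`, `0 ≤ i < k`, from the left is `v / b ^ (k - 1 - i) % b`), are the labels of a walk from `x` to `y`. -/
noncomputable def walks {X : Type} (b : ℕ) (δ : X → ℕ → Option X) (k : ℕ) (x y : X) : Finset ℕ :=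
  (range (b ^ k)).filter fun v =>
    ((List.range k).map fun i => v / b ^ (k - 1 - i) % b).foldl (fun s a => s.bind fun z => δ z a) (some x) = some y

/-- `P` is a set of pairs of an opening digit and a closing digit which match each other, `E` is a set of neutral
digits; the digits are smaller than `b`, no digit plays two of the three roles, and there is at least one pair.
(An opening digit can match several closing digits, and conversely.) -/
structure Alphabet (b : ℕ) (P : Finset (ℕ × ℕ)) (E : Finset ℕ) : Prop where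
  lt : ∀ p ∈ P, p.1 < b ∧ p.2 < b
  ne : ∀ p ∈ P, ∀ p' ∈ P, p.1 ≠ p'.2
  neutral : ∀ a ∈ E, a < b ∧ ∀ p ∈ P, a ≠ p.1 ∧ a ≠ p.2
  nonempty : P.Nonempty

/-- The correctly nested words: the empty word; a neutral digit followed by a correctly nested word; and `o u c w`,
where `u` and `w` are correctly nested words and the opening digit `o` matches the closing digit `c`. -/
inductive Balanced (P : Finset (ℕ × ℕ)) (E : Finset ℕ) : List ℕ → Prop
  | nil : Balanced P E []
  | neutral (a : ℕ) (w : List ℕ) : a ∈ E → Balanced P E w → Balanced P E (a :: w)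
  | pair (o c : ℕ) (u w : List ℕ) : (o, c) ∈ P → Balanced P E u → Balanced P E w → Balanced P E (o :: (u ++ c :: w))

open Classical in
/-- The integers `v < b ^ k` whose `k` digits in base `b`, from the most significant to the least significant one (the
digit number `i`, `0 ≤ i < k`, from the left is `v / b ^ (k - 1 - i) % b`), form a correctly nested word. -/
noncomputable def brackets (b : ℕ) (P : Finset (ℕ × ℕ)) (E : Finset ℕ) (k : ℕ) : Finset ℕ :=
  (range (b ^ k)).filter fun v => Balanced P E ((List.range k).map fun i => v / b ^ (k - 1 - i) % b)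

/-- The digit of `v` at the position `i` in base `b` (the position `0` is the least significant one). -/
def dig (b v i : ℕ) : ℕ := v / b ^ i % b

/-- The integer which has the digits of `v` at the positions in `S` and the digits of `w` at the other positions below `k`. -/
def splice (b k : ℕ) (S : Finset ℕ) (v w : ℕ) : ℕ := ∑ i ∈ range k, (if i ∈ S then dig b v i else dig b w i) * b ^ i

/-- `v` and `w` have the same digits outside the set `S` of positions. -/
def Off (b : ℕ) (S : Finset ℕ) (v w : ℕ) : Prop := ∀ i, i ∉ S → dig b v i = dig b w i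

open Classical in
/-- The closed neighbourhood of the position `i` in the graph `A` on the positions `0, …, k - 1`. -/
noncomputable def nb (k : ℕ) (A : ℕ → ℕ → Prop) (i : ℕ) : Finset ℕ := (range k).filter fun j => j = i ∨ A i j

open Classical in
/-- The total weight of the integers below `b ^ k` which have the same digits as `v` outside `S`. -/
noncomputable def mass (b k : ℕ) (p : ℕ → ℝ) (S : Finset ℕ) (v : ℕ) : ℝ :=
  ∑ w ∈ (range (b ^ k)).filter (fun w => Off b S w v), p w

/-- The digits of a random integer `v < b ^ k` (with the probabilities `p v`) form a Markov random field on a graph `A` of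
positions with degrees at most `Δ` (the Markov property: for every set `S` of positions and all `v`, `w` which have the same
digits at the positions outside `S` adjacent to `S`, the product `p v * p w` does not change if `v` and `w` exchange their
digits in `S`), and each digit is flexible: for every `v` with `p v ≠ 0` and every position `i`, there are `x` and `y` which
have the same digits as `v` outside the closed neighbourhood of `i`, which differ from each other exactly at the position
`i`, and whose conditional probabilities, given the digits outside this neighbourhood, are at least `η`. -/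
structure Field (b k Δ : ℕ) (η : ℝ) (A : ℕ → ℕ → Prop) (p : ℕ → ℝ) : Prop where
  symm : ∀ i j, A i j → A j i
  degree : ∀ i < k, (nb k A i).card ≤ Δ + 1
  nonneg : ∀ v, 0 ≤ p v
  sum : ∑ v ∈ range (b ^ k), p v = 1
  markov : ∀ S : Finset ℕ, ∀ v < b ^ k, ∀ w < b ^ k, (∀ i ∈ S, ∀ j < k, j ∉ S → A i j → dig b v j = dig b w j) →
    p v * p w = p (splice b k S v w) * p (splice b k S w v)
  flexible : ∀ v < b ^ k, p v ≠ 0 → ∀ i < k, ∃ x < b ^ k, ∃ y < b ^ k, Off b (nb k A i) x v ∧ Off b {i} y x ∧
    dig b y i ≠ dig b x i ∧ η * mass b k p (nb k A i) v ≤ p x ∧ η * mass b k p (nb k A i) v ≤ p y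

open Classical in
/-- The uniform distribution on the finite set `S`. -/
noncomputable def uniform (S : Finset ℕ) (v : ℕ) : ℝ := if v ∈ S then 1 / (S.card : ℝ) else 0

/-- The families of distributions of a random integer `v < b ^ k` which are considered here (`𝓕 k p` means that the
distribution `p` belongs to the family).
* `walks`: the uniform distribution on the integers whose `k` digits are the labels of a walk from `x₀` to some vertex `y`,
  where the number of the closed walks of length `2n` at `x₀` is at most `ρ ^ (2n)` for all `n`, and the number of the walks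
  of length `k` from `x₀` to `y` is at least `ρ ^ k / k ^ D` (all vertices `y` with this property are allowed);
* `words`: the uniform distribution on the integers whose `k` digits form a correctly nested word;
* `fields`: the digits form a Markov random field with flexible digits, on any graph of positions with degrees at most `Δ`. -/
inductive Law (b : ℕ) : (ℕ → (ℕ → ℝ) → Prop) → Prop
  | walks {X : Type} (δ : X → ℕ → Option X) (x₀ : X) (ρ : ℝ) (D : ℕ) : Graph b δ → 0 < ρ →
      (∀ n : ℕ, ((walks b δ (2 * n) x₀ x₀).card : ℝ) ≤ ρ ^ (2 * n)) →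
      Law b fun k p => ∃ y : X, ρ ^ k ≤ (k : ℝ) ^ D * (walks b δ k x₀ y).card ∧ p = uniform (walks b δ k x₀ y)
  | words (P : Finset (ℕ × ℕ)) (E : Finset ℕ) : Alphabet b P E →
      Law b fun k p => (brackets b P E k).Nonempty ∧ p = uniform (brackets b P E k)
  | fields (Δ : ℕ) (η : ℝ) : 2 ≤ b → 0 < η → Law b fun k p => ∃ A : ℕ → ℕ → Prop, Field b k Δ η A p


/-- the product of `1 - 1/q` over the primes `q ≤ y` -/
noncomputable def V (y : ℕ) : ℝ := ∏ q ∈ (Icc 1 y).filter Nat.Prime, (1 - 1 / (q : ℝ))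

/-- the multiple of the product of the primes `≤ y` given by the integers `h` and `c + κ v` -/
def Nv (y h : ℕ) (c κ : ℤ) (v : ℕ) : ℤ := ((primorial y * h : ℕ) : ℤ) * (c + κ * v)

lemma bal_iff (P : Finset (ℕ × ℕ)) (E : Finset ℕ) (w : List ℕ) : Balanced P E w ↔ Pool.Agent.N625.DY.Balanced P E w := by
  constructor
  · intro h
    induction h with
    | nil => exact .nil
    | neutral a w h1 _ ih => exact .neutral a w h1 ih
    | pair o c u w h1 _ _ ih1 ih2 => exact .pair o c u w h1 ih1 ih2
  · intro h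
    induction h with
    | nil => exact .nil
    | neutral a w h1 _ ih => exact .neutral a w h1 ih
    | pair o c u w h1 _ _ ih1 ih2 => exact .pair o c u w h1 ih1 ih2

lemma brackets_eq (b : ℕ) (P : Finset (ℕ × ℕ)) (E : Finset ℕ) (k : ℕ) :
    brackets b P E k = Pool.Agent.N625.DY.brackets b P E k := by
  classical
  unfold brackets Pool.Agent.N625.DY.brackets Pool.Agent.N625.DY.word
  ext v
  rw [mem_filter, mem_filter, bal_iff]

lemma field_conv {b k Δ : ℕ} {η : ℝ} {A : ℕ → ℕ → Prop} {p : ℕ → ℝ} (h : Field b k Δ η A p) :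
    Pool.Agent.N213.GF.Field b k Δ η A p :=
  ⟨h.symm, h.degree, h.nonneg, h.sum, h.markov, h.flexible⟩

theorem siev_of {b : ℕ} {𝓕 : ℕ → (ℕ → ℝ) → Prop} (h : Law b 𝓕) : ∃ L, Pool.Agent.Run7.h927.SV.Siev b L 𝓕 := by
  rcases h with ⟨δ, x₀, ρ, D, hG, hρ, hR⟩ | ⟨P, E, hA⟩ | ⟨Δ, η, hb, hη⟩
  · refine Pool.Agent.Run7.h927.SV.w_siev (δ := δ) ⟨hG.symm, hG.two⟩ x₀ ρ hρ hR D _ ?_
    rintro k p ⟨y, h1, rfl⟩
    exact ⟨y, h1, rfl⟩
  · have hA' : Pool.Agent.N625.DY.Alphabet b P E := ⟨hA.lt, hA.ne, hA.neutral, hA.nonempty⟩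
    refine Pool.Agent.Run7.h927.SV.br_siev hA' _ ?_
    rintro k p ⟨h1, rfl⟩
    rw [brackets_eq] at h1 ⊢
    refine ⟨?_, rfl⟩
    by_contra h2
    rw [Pool.Agent.N625.DY.br_empty k h2] at h1
    exact Finset.not_nonempty_empty h1
  · refine Pool.Agent.Run7.h927.SV.gf_siev b Δ η hb hη _ ?_
    rintro k p ⟨A, hF⟩
    exact ⟨A, field_conv hF⟩


/-- the number of the prime factors is at most the binary logarithm -/
lemma pf_card (D : ℕ) (hD : 1 ≤ D) : 2 ^ D.primeFactors.card ≤ D := by
  have h1 : ∏ q ∈ D.primeFactors, q ≤ D := Nat.le_of_dvd (by omega) (Nat.prod_primeFactors_dvd D)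
  refine le_trans ?_ h1
  rw [← Finset.prod_const]
  exact Finset.prod_le_prod' (fun q hq => (Nat.prime_of_mem_primeFactors hq).two_le)

lemma few (D : ℕ) (hD : 1 ≤ D) (K : Finset ℕ) (f : ℕ → ℕ) (hf : Set.InjOn f K) (hp : ∀ i ∈ K, (f i).Prime) :
    (K.filter (fun i => ¬ (f i).Coprime D)).card ≤ D.primeFactors.card := by
  apply Finset.card_le_card_of_injOn f
  · intro i hi
    rw [mem_coe, mem_filter] at hi
    rw [mem_coe, Nat.mem_primeFactors]
    refine ⟨hp i hi.1, ?_, by omega⟩
    by_contra hcon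
    exact hi.2 ((hp i hi.1).coprime_iff_not_dvd.2 hcon)
  · exact hf.mono (by
      intro i hi
      rw [mem_coe, mem_filter] at hi
      exact hi.1)

open Classical in
/-- Several sequences of primes shifted by independent random multiples of a small primorial. -/
theorem gen (r : ℕ) {b : ℕ} (hb : 2 ≤ b) {𝓕 : Fin r → ℕ → (ℕ → ℝ) → Prop} (hF : ∀ j, Law b (𝓕 j)) (κ : Fin r → ℤ)
    (hκ : ∀ j, κ j ≠ 0) (B J A C K₁ : ℕ) (θ : ℝ) (hθ : 0 < θ) (ε : ℝ) (hε : 0 < ε) (hε1 : ε ≤ 1) :
    ∃ d₀ : ℕ, ∀ d : ℕ, d₀ ≤ d → ∀ μ : Fin r → ℕ → ℝ, (∀ j, 𝓕 j d (μ j)) →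
    ∀ y : ℕ, θ * Real.log d ≤ y → y ≤ K₁ * Real.log d → ∀ c : Fin r → ℤ, (∀ j, |c j| ≤ B * (b : ℤ) ^ d) →
    ∀ h : Fin r → ℕ, (∀ j, 1 ≤ h j ∧ h j ≤ d ^ J) → ∀ X : ℕ, X ≤ b ^ d * d ^ C →
    ∀ (K : Finset ℕ) (f : Fin r → ℕ → ℕ), (∀ j, Set.InjOn (f j) K) → (∀ j, ∀ i ∈ K, (f j i).Prime ∧ f j i ≤ X) →
    b ^ d ≤ K.card * d ^ A → ∀ σ : Fin r → ℤ, (∀ j, σ j = 1 ∨ σ j = -1) →
    ∑ v ∈ Fintype.piFinset (fun _ : Fin r => range (b ^ d)),
      (if (∀ j, ∀ i ∈ K, 0 < Nv y (h j) (c j) (κ j) (v j) + σ j * (f j i : ℕ)) →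
        |((K.filter (fun i => ∀ j : Fin r, (Nv y (h j) (c j) (κ j) (v j) + σ j * (f j i : ℕ)).toNat.Prime)).card : ℝ) -
          K.card / (V y * (d * Real.log b)) ^ r| ≤ ε * (K.card / (V y * (d * Real.log b)) ^ r) then 0 else ∏ j, μ j (v j)) ≤ ε := by
  have hex := fun j => siev_of (hF j)
  choose L hsv using hex
  obtain ⟨A', hA'⟩ : ∃ A' : ℕ, A' = 2 * K₁ + J := ⟨_, rfl⟩
  obtain ⟨k₀, h0⟩ := Pool.Agent.Run7.h927.SV.tuple_law hb r hsv κ hκ B J (A + C + 2) (A + C + 2) K₁ θ hθ (ε / 4)
    (by positivity) (by linarith)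
  -- the size of the set of the exceptional indices
  obtain ⟨N, hN⟩ : ∃ N : ℕ, 4 / ε ≤ N := exists_nat_ge _
  have hlim : ∃ k₁ : ℕ, ∀ d : ℕ, k₁ ≤ d → N * (r * (A' * d)) * (b * d) ^ r * d ^ A ≤ b ^ d := by
    obtain ⟨k₁, h1⟩ := Pool.Agent.N625.PT.pow_le_pow_digits b hb (A + r + 2)
    refine ⟨max k₁ (N * r * A' * b ^ r), fun d hd => ?_⟩
    refine le_trans ?_ (h1 d (by omega))
    have h2 : N * r * A' * b ^ r ≤ d := by omega
    calc N * (r * (A' * d)) * (b * d) ^ r * d ^ A = (N * r * A' * b ^ r) * d ^ (A + r + 1) := by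
          rw [mul_pow, pow_succ, pow_add]; ring
      _ ≤ d * d ^ (A + r + 1) := Nat.mul_le_mul_right _ h2
      _ = d ^ (A + r + 2) := by rw [pow_succ d (A + r + 1)]; ring
  obtain ⟨k₁, h1⟩ := hlim
  refine ⟨max k₀ (max k₁ 4), fun d hd μ hμ y hy1 hy2 c hc h hh X hX K f hf hfp hK σ hσ => ?_⟩
  have hd0 : k₀ ≤ d := by omega
  have hd1 : k₁ ≤ d := by omega
  have hd4 : 4 ≤ d := by omega
  have hl := h1 d hd1
  obtain ⟨I, hI⟩ : ∃ I, I = K.filter (fun i => ∀ j, (f j i).Coprime (primorial y * h j)) := ⟨_, rfl⟩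
  have hIK : I ⊆ K := by rw [hI]; exact filter_subset _ _
  have hDj : ∀ j, 1 ≤ primorial y * h j ∧ primorial y * h j ≤ d ^ A' := by
    intro j
    refine ⟨Nat.mul_pos (primorial_pos y) (hh j).1, ?_⟩
    rw [hA']
    exact Pool.Agent.N625.PT.mult_small K₁ J d y (h j) (by omega) hy2 (hh j).2
  have hw : ∀ j, (primorial y * h j).primeFactors.card ≤ A' * d := by
    intro j
    have e1 := (pf_card _ (hDj j).1).trans (hDj j).2
    have e2 : d ^ A' ≤ 2 ^ (A' * d) := by
      rw [mul_comm, pow_mul]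
      exact Nat.pow_le_pow_left (Nat.lt_two_pow_self).le _
    exact (Nat.pow_le_pow_iff_right (by norm_num)).1 (e1.trans e2)
  -- the exceptional indices
  have hbadc : (K \ I).card ≤ r * (A' * d) := by
    have e1 : K \ I ⊆ (univ : Finset (Fin r)).biUnion (fun j => K.filter (fun i => ¬ (f j i).Coprime (primorial y * h j))) := by
      intro i hi
      rw [mem_sdiff, hI, mem_filter] at hi
      rw [mem_biUnion]
      have e2 : ∃ j, ¬ (f j i).Coprime (primorial y * h j) := by
        by_contra hcon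
        push Not at hcon
        exact hi.2 ⟨hi.1, hcon⟩
      obtain ⟨j, hj⟩ := e2
      exact ⟨j, mem_univ _, mem_filter.2 ⟨hi.1, hj⟩⟩
    refine (card_le_card e1).trans (card_biUnion_le.trans ?_)
    calc ∑ j : Fin r, (K.filter (fun i => ¬ (f j i).Coprime (primorial y * h j))).card ≤ ∑ _j : Fin r, A' * d :=
          sum_le_sum fun j _ => (few _ (hDj j).1 K (f j) (hf j) (fun i hi => (hfp j i hi).1)).trans (hw j)
      _ = r * (A' * d) := by simp
  have hKI : K.card = I.card + (K \ I).card := by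
    rw [add_comm]
    exact (card_sdiff_add_card_eq_card hIK).symm
  obtain ⟨w, hwd⟩ : ∃ w, w = (K \ I).card := ⟨_, rfl⟩
  rw [← hwd] at hbadc hKI
  have hdpos : 0 < d := by omega
  -- `N w (b d)^r ≤ |K|`
  have hNw : N * w * (b * d) ^ r ≤ K.card := by
    have e1 : N * w * (b * d) ^ r * d ^ A ≤ K.card * d ^ A := by
      refine le_trans ?_ hK
      refine le_trans ?_ hl
      apply Nat.mul_le_mul_right
      apply Nat.mul_le_mul_right
      exact Nat.mul_le_mul_left _ hbadc
    exact Nat.le_of_mul_le_mul_right e1 (by positivity)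
  have hN0 : 4 / ε * (w : ℝ) * ((b : ℝ) * d) ^ r ≤ K.card := by
    have e1 : ((N : ℝ) * w * ((b : ℝ) * d) ^ r) ≤ K.card := by exact_mod_cast hNw
    refine le_trans ?_ e1
    apply mul_le_mul_of_nonneg_right _ (by positivity)
    exact mul_le_mul_of_nonneg_right hN (Nat.cast_nonneg _)
  have hbr : (2 : ℝ) ≤ b := by exact_mod_cast hb
  have hdr : (4 : ℝ) ≤ d := by exact_mod_cast hd4
  have hbd1 : (1 : ℝ) ≤ ((b : ℝ) * d) ^ r := one_le_pow₀ (by nlinarith)
  have hw0 : (0 : ℝ) ≤ w := Nat.cast_nonneg _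
  have hwK : (w : ℝ) ≤ ε / 4 * K.card := by
    have e1 : 4 / ε * (w : ℝ) ≤ K.card := by
      refine le_trans ?_ hN0
      exact le_mul_of_one_le_right (by positivity) hbd1
    have e2 := mul_le_mul_of_nonneg_left e1 (show (0 : ℝ) ≤ ε / 4 by positivity)
    have e3 : ε / 4 * (4 / ε * (w : ℝ)) = w := by field_simp
    linarith
  have hKr : (K.card : ℝ) = I.card + w := by exact_mod_cast hKI
  have hK0 : (0 : ℝ) ≤ K.card := Nat.cast_nonneg _
  have hI0 : (0 : ℝ) ≤ I.card := Nat.cast_nonneg _
  have hIhalf : (K.card : ℝ) ≤ 2 * I.card := by nlinarith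
  -- the law
  obtain ⟨X', hX'⟩ : ∃ X' : ℕ, X' = b ^ d * d ^ C := ⟨_, rfl⟩
  have hdC : ∀ m : ℕ, 1 ≤ d ^ m := fun m => Nat.one_le_pow _ _ hdpos
  have hlaw := h0 d hd0 μ hμ y hy1 hy2 c hc h hh X' (by
      rw [hX', mul_assoc]
      exact Nat.le_mul_of_pos_right _ (Nat.mul_pos (hdC C) (hdC _))) (by
      rw [hX']
      exact Nat.mul_le_mul_left _ (Nat.pow_le_pow_right hdpos (by omega))) I f (fun j => (hf j).mono (by exact_mod_cast hIK))
      (fun j i hi => by
        have e1 := hfp j i (hIK hi)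
        refine ⟨e1.1.one_lt.le, e1.2.trans (hX.trans hX'.symm.le), ?_⟩
        rw [hI, mem_filter] at hi
        exact hi.2 j) (by
      have e1 : (b : ℝ) ^ d ≤ K.card * (d : ℝ) ^ A := by exact_mod_cast hK
      have e2 : (X' : ℝ) = (b : ℝ) ^ d * (d : ℝ) ^ C := by rw [hX']; push_cast; ring
      rw [e2]
      calc (b : ℝ) ^ d * (d : ℝ) ^ C ≤ (K.card * (d : ℝ) ^ A) * (d : ℝ) ^ C := mul_le_mul_of_nonneg_right e1 (by positivity)
        _ ≤ ((2 * I.card) * (d : ℝ) ^ A) * (d : ℝ) ^ C := by
            apply mul_le_mul_of_nonneg_right _ (by positivity)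
            exact mul_le_mul_of_nonneg_right hIhalf (by positivity)
        _ = I.card * ((d : ℝ) ^ (A + C) * 2) := by rw [pow_add]; ring
        _ ≤ I.card * ((d : ℝ) ^ (A + C) * (d : ℝ) ^ 2) := by
            apply mul_le_mul_of_nonneg_left _ hI0
            apply mul_le_mul_of_nonneg_left _ (by positivity)
            nlinarith
        _ = _ := by rw [pow_add (d : ℝ) (A + C) 2]) σ hσ
  refine le_trans (sum_le_sum fun v _ => ?_) (hlaw.trans (by linarith))
  have hprod : 0 ≤ ∏ j, μ j (v j) := prod_nonneg fun j _ => (hsv j).nonneg d (μ j) (hμ j) _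
  split_ifs with c1 c2 c2
  · exact le_rfl
  · exact hprod
  · exfalso
    apply c1
    intro hpos
    have hposI : ∀ j, ∀ i ∈ I, 0 < Pool.Agent.N625.PT.Nm y (h j) (c j) (κ j) (v j) + σ j * (f j i : ℕ) :=
      fun j i hi => hpos j i (hIK hi)
    have hres := c2 hposI r le_rfl
    obtain ⟨W, hW⟩ : ∃ W, W = V y := ⟨_, rfl⟩
    have hWz : Pool.Agent.H373R2.T7.Vz y = W := by rw [hW]; rfl
    have hW0 : 0 < W := by rw [← hWz]; exact Pool.Agent.H373R2.T7.Vz_pos y
    have hW1 : W ≤ 1 := by rw [← hWz]; exact Pool.Agent.H373R2.T7.Vz_le_one y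
    rw [hWz] at hres
    rw [← hW]
    have hfe : I.filter (fun i => ∀ j : Fin r, (j : ℕ) < r → (Pool.Agent.N625.PT.Nm y (h j) (c j) (κ j) (v j) + σ j * (f j i : ℕ)).toNat.Prime) =
        I.filter (fun i => ∀ j : Fin r, (Nv y (h j) (c j) (κ j) (v j) + σ j * (f j i : ℕ)).toNat.Prime) := by
      apply filter_congr
      intro i _
      exact ⟨fun g j => g j j.2, fun g j _ => g j⟩
    rw [hfe] at hres
    obtain ⟨GI, hGI⟩ : ∃ GI, GI = I.filter (fun i => ∀ j : Fin r, (Nv y (h j) (c j) (κ j) (v j) + σ j * (f j i : ℕ)).toNat.Prime) := ⟨_, rfl⟩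
    obtain ⟨GK, hGK⟩ : ∃ GK, GK = K.filter (fun i => ∀ j : Fin r, (Nv y (h j) (c j) (κ j) (v j) + σ j * (f j i : ℕ)).toNat.Prime) := ⟨_, rfl⟩
    rw [← hGI] at hres
    rw [← hGK]
    have g1 : GI.card ≤ GK.card := by
      rw [hGI, hGK]
      exact card_le_card (filter_subset_filter _ hIK)
    have g2 : GK.card ≤ GI.card + w := by
      have e1 : GK ⊆ GI ∪ (K \ I) := by
        intro i hi
        rw [hGK, mem_filter] at hi
        rw [mem_union, mem_sdiff]
        by_cases hiI : i ∈ I
        · left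
          rw [hGI, mem_filter]
          exact ⟨hiI, hi.2⟩
        · exact Or.inr ⟨hi.1, hiI⟩
      rw [hwd]
      exact (card_le_card e1).trans (card_union_le _ _)
    have g1r : (GI.card : ℝ) ≤ GK.card := by exact_mod_cast g1
    have g2r : (GK.card : ℝ) ≤ GI.card + w := by exact_mod_cast g2
    obtain ⟨M, hM⟩ : ∃ M, M = (W * (d * Real.log b)) ^ r := ⟨_, rfl⟩
    rw [← hM] at hres ⊢
    have hlb0 : 0 < Real.log b := Real.log_pos (by linarith)
    have hlb1 : Real.log b ≤ b := (Real.log_le_sub_one_of_pos (by linarith)).trans (by linarith)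
    have hM0 : 0 < M := by rw [hM]; positivity
    have hM1 : M ≤ ((b : ℝ) * d) ^ r := by
      rw [hM]
      apply pow_le_pow_left₀ (by positivity)
      calc W * (d * Real.log b) ≤ 1 * (d * b) := by
            apply mul_le_mul hW1 _ (by positivity) (by norm_num)
            exact mul_le_mul_of_nonneg_left hlb1 (by positivity)
        _ = _ := by ring
    have hwE : (w : ℝ) ≤ ε / 4 * (K.card / M) := by
      have e1 : (4 / ε * (w : ℝ)) * M ≤ K.card := le_trans (mul_le_mul_of_nonneg_left hM1 (by positivity)) hN0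
      have e2 : 4 / ε * (w : ℝ) ≤ K.card / M := by rwa [le_div_iff₀ hM0]
      have e3 := mul_le_mul_of_nonneg_left e2 (show (0 : ℝ) ≤ ε / 4 by positivity)
      have e4 : ε / 4 * (4 / ε * (w : ℝ)) = w := by field_simp
      linarith
    have hwM : (w : ℝ) / M ≤ ε / 4 * (K.card / M) := by
      rw [← mul_div_assoc]
      exact div_le_div_of_nonneg_right hwK hM0.le
    have hIE : ε / 4 * (I.card / M) ≤ ε / 4 * (K.card / M) := by
      apply mul_le_mul_of_nonneg_left _ (by positivity)
      exact div_le_div_of_nonneg_right (by linarith) hM0.le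
    have hKM : (K.card : ℝ) / M = I.card / M + w / M := by rw [hKr, add_div]
    have hE0 : 0 ≤ (K.card : ℝ) / M := by positivity
    have hwM0 : 0 ≤ (w : ℝ) / M := by positivity
    rw [abs_le] at hres ⊢
    have hεE : 0 ≤ ε * ((K.card : ℝ) / M) := by positivity
    constructor <;> nlinarith [hres.1, hres.2]
  · exact le_rfl

/-- sizes -/
lemma size (b C : ℕ) (hb : 2 ≤ b) : ∃ d₁ : ℕ, ∀ d : ℕ, d₁ ≤ d → ∀ n : ℕ, n ≤ b ^ d * d ^ C → ∀ m : ℕ,
    (m : ℝ) ≤ n * Real.log n ^ 5 → m ≤ b ^ d * d ^ (C + 10) := by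
  obtain ⟨k₂, h2⟩ := Pool.Agent.N625.PT.log_X b C hb
  refine ⟨k₂, fun d hd n hn m hm => ?_⟩
  have h3 := h2 d hd n hn
  have hl : 0 ≤ Real.log n := Real.log_natCast_nonneg n
  have h4 : Real.log n ^ 5 ≤ (d : ℝ) ^ 10 := by
    calc Real.log n ^ 5 ≤ ((d : ℝ) ^ 2) ^ 5 := pow_le_pow_left₀ hl h3 5
      _ = _ := by ring
  have h5 : (n : ℝ) ≤ (b : ℝ) ^ d * (d : ℝ) ^ C := by exact_mod_cast hn
  have h6 : (m : ℝ) ≤ ((b ^ d * d ^ (C + 10) : ℕ) : ℝ) := by
    refine hm.trans ?_
    push_cast
    calc (n : ℝ) * Real.log n ^ 5 ≤ ((b : ℝ) ^ d * (d : ℝ) ^ C) * (d : ℝ) ^ 10 :=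
          mul_le_mul h5 h4 (by positivity) (by positivity)
      _ = _ := by rw [pow_add]; ring
  exact_mod_cast h6

theorem nth_inj : Function.Injective (Nat.nth Nat.Prime) := Nat.nth_injective Nat.infinite_setOfPred_prime

end Pool.Agent.Run7.h740.DL
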